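import Pool.Agent.Helper37.SN.Stmts

set_option autoImplicit false

/-!
Module TAYB of the project SN (MP_aa31b4_an): the Taylor remainder profiles.
-/

namespace Pool.Agent.Helper20.SN

open Pool.Agent.Helper37.SN Finset

/-- Taylor remainder of `y ↦ f (a + h y)` at `0` -/
noncomputable def tR (f : ℝ → ℝ) (M : ℕ) (a h y : ℝ) : ℝ :=
  f (a + h * y) - ∑ β ∈ Finset.range M, iteratedDeriv β f a / (β.factorial : ℝ) * (h * y) ^ β

lemma hasDerivAt_tR (f : ℝ → ℝ) (hf : ContDiff ℝ (⊤ : ℕ∞) f) (M : ℕ) (a h y : ℝ) :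
    HasDerivAt (tR f (M + 1) a h) (h * tR (deriv f) M a h y) y := by
  have hlin : HasDerivAt (fun y : ℝ => h * y) h y := by
    simpa using (hasDerivAt_id y).const_mul h
  have hlin2 : HasDerivAt (fun y : ℝ => a + h * y) h y := by
    simpa using hlin.const_add a
  have hd : HasDerivAt f (deriv f (a + h * y)) (a + h * y) :=
    ((hf.differentiable (by simp)) _).hasDerivAt
  have h1 : HasDerivAt (fun y : ℝ => f (a + h * y)) (deriv f (a + h * y) * h) y :=
    hd.comp y hlin2
  have h2 : HasDerivAt (fun y : ℝ => ∑ β ∈ Finset.range M,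
      iteratedDeriv (β + 1) f a / ((β + 1).factorial : ℝ) * (h * y) ^ (β + 1))
      (∑ β ∈ Finset.range M, h * (iteratedDeriv β (deriv f) a / (β.factorial : ℝ) * (h * y) ^ β))
      y := by
    apply HasDerivAt.fun_sum
    intro β _
    have h3 := (hlin.fun_pow (β + 1)).const_mul (iteratedDeriv (β + 1) f a / ((β + 1).factorial : ℝ))
    refine h3.congr_deriv ?_
    have hfac : ((β + 1).factorial : ℝ) = ((β : ℝ) + 1) * (β.factorial : ℝ) := by
      rw [Nat.factorial_succ]; push_cast; ring
    have hb : (β.factorial : ℝ) ≠ 0 := by positivity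
    have hb1 : ((β : ℝ) + 1) ≠ 0 := by positivity
    rw [iteratedDeriv_succ', hfac]
    simp only [Nat.add_sub_cancel]
    push_cast
    field_simp
  have h4 : HasDerivAt (fun _ : ℝ => iteratedDeriv 0 f a / ((0 : ℕ).factorial : ℝ)) 0 y :=
    hasDerivAt_const _ _
  have h5 := h1.fun_sub (h2.fun_add h4)
  have heq : (tR f (M + 1) a h) = fun y => f (a + h * y) -
      ((∑ β ∈ Finset.range M,
      iteratedDeriv (β + 1) f a / ((β + 1).factorial : ℝ) * (h * y) ^ (β + 1)) +
      iteratedDeriv 0 f a / ((0 : ℕ).factorial : ℝ)) := by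
    funext z
    unfold tR
    rw [Finset.sum_range_succ']
    simp
  rw [heq]
  refine h5.congr_deriv ?_
  unfold tR
  rw [mul_sub, Finset.mul_sum]
  ring

lemma contDiff_tR (f : ℝ → ℝ) (hf : ContDiff ℝ (⊤ : ℕ∞) f) (M : ℕ) (a h : ℝ) :
    ContDiff ℝ (⊤ : ℕ∞) (tR f M a h) := by
  unfold tR
  apply ContDiff.sub
  · exact hf.comp (contDiff_const.add (contDiff_const.mul contDiff_id))
  · apply ContDiff.sum
    intro β _
    exact contDiff_const.mul ((contDiff_const.mul contDiff_id).pow β)

lemma tR_bound (M : ℕ) : ∀ (f : ℝ → ℝ), ContDiff ℝ (⊤ : ℕ∞) f → ∀ B : ℝ,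
    (∀ y, |iteratedDeriv M f y| ≤ B) → ∀ a h : ℝ, 0 < h →
    ∀ i ≤ M, ∀ y, |y| ≤ 2 → |iteratedDeriv i (tR f M a h) y| ≤ 2 ^ M * B * h ^ M := by
  induction M with
  | zero =>
    intro f hf B hB a h hh i hi y hy
    have hi0 : i = 0 := by omega
    subst hi0
    have := hB (a + h * y)
    simpa [tR] using this
  | succ M ih =>
    intro f hf B hB a h hh i hi y hy
    have hB0 : 0 ≤ B := le_trans (abs_nonneg _) (hB 0)
    have hf' : ContDiff ℝ (⊤ : ℕ∞) (deriv f) := by
      have h1 : ContDiff ℝ ((⊤ : ℕ∞) + 1 : WithTop ℕ∞) f := by simpa using hf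
      exact (contDiff_succ_iff_deriv.1 h1).2.2
    have hder : deriv (tR f (M + 1) a h) = fun y => h * tR (deriv f) M a h y := by
      funext z
      exact (hasDerivAt_tR f hf M a h z).deriv
    have hB' : ∀ y, |iteratedDeriv M (deriv f) y| ≤ B := by
      intro z
      have := hB z
      rwa [iteratedDeriv_succ'] at this
    have IH := ih (deriv f) hf' B hB' a h hh
    rcases Nat.eq_zero_or_pos i with hi0 | hi0
    · subst hi0
      rw [iteratedDeriv_zero]
      have hz : tR f (M + 1) a h 0 = 0 := by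
        unfold tR
        rw [Finset.sum_range_succ']
        simp
      have hmv : ‖tR f (M + 1) a h y - tR f (M + 1) a h 0‖ ≤
          (h * (2 ^ M * B * h ^ M)) * ‖y - 0‖ := by
        apply (convex_Icc (-2 : ℝ) 2).norm_image_sub_le_of_norm_deriv_le
          (f := tR f (M + 1) a h)
        · intro z _
          exact (hasDerivAt_tR f hf M a h z).differentiableAt
        · intro z hz
          rw [hder]
          have hz2 : |z| ≤ 2 := abs_le.2 hz
          have := IH 0 (Nat.zero_le _) z hz2
          rw [iteratedDeriv_zero] at this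
          simp only [Real.norm_eq_abs, abs_mul, abs_of_pos hh]
          exact mul_le_mul_of_nonneg_left this hh.le
        · constructor <;> norm_num
        · exact abs_le.1 hy
      rw [hz, sub_zero, sub_zero, Real.norm_eq_abs, Real.norm_eq_abs] at hmv
      calc |tR f (M + 1) a h y| ≤ (h * (2 ^ M * B * h ^ M)) * |y| := hmv
        _ ≤ (h * (2 ^ M * B * h ^ M)) * 2 := by
            apply mul_le_mul_of_nonneg_left hy
            positivity
        _ = 2 ^ (M + 1) * B * h ^ (M + 1) := by ring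
    · obtain ⟨j, rfl⟩ : ∃ j, i = j + 1 := ⟨i - 1, by omega⟩
      rw [iteratedDeriv_succ', hder]
      have hj : j ≤ M := by omega
      have h1 : iteratedDeriv j (fun y => h * tR (deriv f) M a h y) y =
          h * iteratedDeriv j (tR (deriv f) M a h) y := by
        apply iteratedDeriv_const_mul_field
      rw [h1, abs_mul, abs_of_pos hh]
      calc h * |iteratedDeriv j (tR (deriv f) M a h) y| ≤ h * (2 ^ M * B * h ^ M) :=
            mul_le_mul_of_nonneg_left (IH j hj y hy) hh.le
        _ = 2 ^ M * B * h ^ (M + 1) := by ring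
        _ ≤ 2 ^ (M + 1) * B * h ^ (M + 1) := by
            apply mul_le_mul_of_nonneg_right _ (by positivity)
            apply mul_le_mul_of_nonneg_right _ hB0
            exact pow_le_pow_right₀ (by norm_num) (by omega)

theorem sn_TAYB (hGG : ST_GG) (hPRD : ST_PRD) : ST_TAYB := by
  intro k M hkM
  obtain ⟨hsm, -, -, -, hadm⟩ := hGG
  obtain ⟨B, hBpos, hB⟩ := hadm M
  obtain ⟨P, hPpos, hP⟩ := hPRD k
  refine ⟨P * (2 ^ M * B), by positivity, ?_⟩
  intro a h hh _
  have h1 := hP (2 ^ M * B * h ^ M) (tR gg M a h)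
    ((contDiff_tR gg hsm M a h).of_le (by exact_mod_cast le_top))
    (fun i hi y hy => tR_bound M gg hsm B (fun y => hB.2.2 M le_rfl y) a h hh i
      (le_trans hi hkM) y hy)
  have h2 : P * (2 ^ M * B) * h ^ M = P * (2 ^ M * B * h ^ M) := by ring
  rw [h2]
  exact h1

end Pool.Agent.Helper20.SN
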